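import Mathlib

namespace Pool.Agent.Lib.MP_cf3d36_an

open Function Filter Topology Set

/-- A pointwise positive linear family of functionals depending continuously on the point
defines a bounded operator. -/
theorem exists_op {Z K : Type*} [TopologicalSpace Z] [CompactSpace Z] [TopologicalSpace K]
    [CompactSpace K] (μ : K → C(Z, ℝ) → ℝ) (hadd : ∀ x f g, μ x (f + g) = μ x f + μ x g)
    (hsmul : ∀ x (c : ℝ) f, μ x (c • f) = c * μ x f) (hpos : ∀ x f, 0 ≤ f → 0 ≤ μ x f)
    (hcont : ∀ f, Continuous fun x => μ x f) :
    ∃ T : C(Z, ℝ) →L[ℝ] C(K, ℝ), ∀ f x, T f x = μ x f := by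
  let T0 : C(Z, ℝ) →ₗ[ℝ] C(K, ℝ) :=
    { toFun := fun f => ⟨fun x => μ x f, hcont f⟩
      map_add' := fun f g => by ext x; exact hadd x f g
      map_smul' := fun c f => by ext x; exact hsmul x c f }
  have hT0 : ∀ f x, T0 f x = μ x f := fun _ _ => rfl
  have hbound : ∀ f, ‖T0 f‖ ≤ ‖T0 1‖ * ‖f‖ := by
    intro f
    rw [ContinuousMap.norm_le _ (by positivity)]
    intro x
    have h1 : 0 ≤ ‖f‖ • (1 : C(Z, ℝ)) - f := by
      intro z
      have := f.norm_coe_le_norm z
      have h2 := le_abs_self (f z)
      simp only [Real.norm_eq_abs] at this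
      simp
      linarith
    have h2 : 0 ≤ ‖f‖ • (1 : C(Z, ℝ)) + f := by
      intro z
      have := f.norm_coe_le_norm z
      have h2 := neg_abs_le (f z)
      simp only [Real.norm_eq_abs] at this
      simp
      linarith
    have h3 := hpos x _ h1
    have h4 := hpos x _ h2
    rw [← hT0, map_sub, map_smul] at h3
    rw [← hT0, map_add, map_smul] at h4
    simp only [ContinuousMap.sub_apply, ContinuousMap.add_apply, ContinuousMap.smul_apply,
      smul_eq_mul] at h3 h4
    have h5 : T0 1 x ≤ ‖T0 1‖ := (le_abs_self _).trans ((T0 1).norm_coe_le_norm x)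
    have h6 : ‖f‖ * T0 1 x ≤ ‖T0 1‖ * ‖f‖ := by
      rw [mul_comm]; exact mul_le_mul_of_nonneg_right h5 (norm_nonneg _)
    rw [Real.norm_eq_abs, abs_le]
    constructor <;> linarith
  exact ⟨T0.mkContinuous _ hbound, fun _ _ => rfl⟩

/-- Positive linear extension operator (Borsuk, Dugundji) along a continuous injection. -/
theorem exists_extension {Z K : Type*} [TopologicalSpace Z] [CompactSpace Z]
    [TopologicalSpace.SeparableSpace Z] [MetricSpace K] [CompactSpace K]
    (j : Z → K) (hj : Continuous j) (hinj : Injective j) :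
    ∃ E : C(Z, ℝ) →L[ℝ] C(K, ℝ), (∀ f, 0 ≤ f → 0 ≤ E f) ∧ ∀ f z, E f (j z) = f z := by
  classical
  rcases isEmpty_or_nonempty Z with hZ | hZ
  · exact ⟨0, fun _ _ => le_rfl, fun _ z => isEmptyElim z⟩
  obtain ⟨a, ha⟩ : ∃ a : ℕ → Z, DenseRange a := ⟨_, TopologicalSpace.denseRange_denseSeq Z⟩
  have hemb : IsClosedEmbedding j := hj.isClosedEmbedding hinj
  set F : Set K := range j with hF
  have hFc : IsClosed F := hemb.isClosed_range
  have hFn : F.Nonempty := range_nonempty j
  set D : ℝ := Metric.diam (univ : Set K) with hD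
  have hDle : ∀ x y : K, dist x y ≤ D := fun x y =>
    Metric.dist_le_diam_of_mem isCompact_univ.isBounded (mem_univ x) (mem_univ y)
  set w : ℕ → K → ℝ := fun n x =>
    (1 / 2 : ℝ) ^ n * max 0 (2 * Metric.infDist x F - dist x (j (a n))) with hw
  have hw0 : ∀ n x, 0 ≤ w n x := fun n x => by simp only [hw]; positivity
  have hwle : ∀ n x, w n x ≤ (1 / 2 : ℝ) ^ n * (2 * D) := by
    intro n x
    simp only [hw]
    apply mul_le_mul_of_nonneg_left _ (by positivity)
    have h1 : Metric.infDist x F ≤ D :=
      (Metric.infDist_le_dist_of_mem (mem_range_self (a 0))).trans (hDle _ _)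
    have h2 : 0 ≤ D := dist_nonneg.trans (hDle x x)
    have h3 : 0 ≤ dist x (j (a n)) := dist_nonneg
    apply max_le <;> linarith
  have hwc : ∀ n, Continuous (w n) := by
    intro n
    simp only [hw]
    have := Metric.continuous_infDist_pt F
    fun_prop
  have hsum0 : ∀ C : ℝ, Summable fun n : ℕ => (1 / 2 : ℝ) ^ n * (2 * D) * C := fun C =>
    ((summable_geometric_two.mul_right _).mul_right _)
  have hbd : ∀ (f : C(Z, ℝ)) n x, ‖w n x * f (a n)‖ ≤ (1 / 2 : ℝ) ^ n * (2 * D) * ‖f‖ := by
    intro f n x
    rw [norm_mul, Real.norm_of_nonneg (hw0 n x)]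
    exact mul_le_mul (hwle n x) (f.norm_coe_le_norm _) (norm_nonneg _)
      ((hw0 n x).trans (hwle n x))
  have hsum : ∀ (f : C(Z, ℝ)) x, Summable fun n => w n x * f (a n) := fun f x =>
    Summable.of_norm_bounded (hsum0 ‖f‖) (fun n => hbd f n x)
  set N : C(Z, ℝ) → K → ℝ := fun f x => ∑' n, w n x * f (a n) with hN
  have hNc : ∀ f, Continuous (N f) := fun f =>
    continuous_tsum (fun n => (hwc n).mul continuous_const) (hsum0 ‖f‖) (hbd f)
  have hNpos : ∀ f x, 0 ≤ f → 0 ≤ N f x := fun f x hf =>
    tsum_nonneg fun n => mul_nonneg (hw0 n x) (hf (a n))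
  have hNadd : ∀ f g x, N (f + g) x = N f x + N g x := by
    intro f g x
    simp only [hN, ContinuousMap.add_apply, mul_add]
    exact (hsum f x).tsum_add (hsum g x)
  have hNsmul : ∀ (c : ℝ) f x, N (c • f) x = c * N f x := by
    intro c f x
    simp only [hN, ContinuousMap.smul_apply, smul_eq_mul]
    rw [← tsum_mul_left]
    congr 1; ext n; ring
  have hW : ∀ x, x ∉ F → 0 < N 1 x := by
    intro x hx
    have h1 : 0 < Metric.infDist x F := (hFc.notMem_iff_infDist_pos hFn).1 hx
    obtain ⟨y, ⟨z, rfl⟩, hz⟩ := (Metric.infDist_lt_iff hFn).1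
      (show Metric.infDist x F < 2 * Metric.infDist x F by linarith)
    have hopen : IsOpen {z : Z | dist x (j z) < 2 * Metric.infDist x F} :=
      isOpen_lt (by fun_prop) continuous_const
    obtain ⟨n, hn⟩ := ha.exists_mem_open hopen ⟨z, hz⟩
    refine (hsum 1 x).tsum_pos (fun n => mul_nonneg (hw0 n x) (by simp)) n ?_
    simp only [hw, ContinuousMap.one_apply, mul_one]
    apply mul_pos (by positivity)
    apply lt_max_of_lt_right
    have : dist x (j (a n)) < 2 * Metric.infDist x F := hn
    linarith
  set μ : K → C(Z, ℝ) → ℝ := fun x f =>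
    if h : x ∈ F then f h.choose else N f x / N 1 x with hμ
  have hμj : ∀ f z, μ (j z) f = f z := by
    intro f z
    have h : j z ∈ F := mem_range_self z
    simp only [hμ, dif_pos h]
    congr 1
    exact hinj h.choose_spec
  have hμn : ∀ f x, x ∉ F → μ x f = N f x / N 1 x := by
    intro f x hx
    simp only [hμ, dif_neg hx]
  have hpos : ∀ x f, 0 ≤ f → 0 ≤ μ x f := by
    intro x f hf
    by_cases hx : x ∈ F
    · obtain ⟨z, rfl⟩ := hx
      rw [hμj]; exact hf z
    · rw [hμn f x hx]; exact div_nonneg (hNpos f x hf) (hW x hx).le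
  obtain ⟨E, hE⟩ := exists_op μ
    (by
      intro x f g
      by_cases hx : x ∈ F
      · obtain ⟨z, rfl⟩ := hx
        simp [hμj]
      · simp only [hμn _ x hx, hNadd, add_div])
    (by
      intro x c f
      by_cases hx : x ∈ F
      · obtain ⟨z, rfl⟩ := hx
        simp [hμj]
      · simp only [hμn _ x hx, hNsmul, mul_div_assoc])
    hpos
    (by
      intro f
      rw [continuous_iff_continuousAt]
      intro x0
      by_cases hx0 : x0 ∈ F
      · obtain ⟨z0, rfl⟩ := hx0
        rw [Metric.continuousAt_iff]
        intro ε hε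
        have h1 : ∀ᶠ z in 𝓝 z0, dist (f z) (f z0) < ε / 2 :=
          Metric.tendsto_nhds.1 f.continuous.continuousAt _ (by positivity)
        rw [hemb.isInducing.nhds_eq_comap, eventually_comap, Metric.eventually_nhds_iff] at h1
        obtain ⟨η, hη, h1⟩ := h1
        refine ⟨η / 3, by positivity, ?_⟩
        intro x hx
        by_cases hxF : x ∈ F
        · obtain ⟨z, rfl⟩ := hxF
          rw [hμj, hμj]
          have := h1 (show dist (j z) (j z0) < η by linarith) z rfl
          linarith
        · rw [hμj, hμn f x hxF]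
          have hWx := hW x hxF
          have key : ∀ n, |w n x * f (a n) - f z0 * (w n x * 1)| ≤ ε / 2 * (w n x * 1) := by
            intro n
            rcases (hw0 n x).eq_or_lt with h | h
            · rw [← h]; simp
            · have h2 : dist x (j (a n)) < 2 * Metric.infDist x F := by
                by_contra hcon
                have : max 0 (2 * Metric.infDist x F - dist x (j (a n))) = 0 :=
                  max_eq_left (by linarith [not_lt.1 hcon])
                simp only [hw, this, mul_zero] at h
                exact lt_irrefl _ h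
              have h3 : Metric.infDist x F ≤ dist x (j z0) :=
                Metric.infDist_le_dist_of_mem (mem_range_self z0)
              have h4 : dist (j (a n)) (j z0) < η := by
                have := dist_triangle_left (j (a n)) (j z0) x
                linarith
              have h5 := h1 h4 (a n) rfl
              rw [Real.dist_eq] at h5
              have h6 : w n x * f (a n) - f z0 * (w n x * 1) = w n x * (f (a n) - f z0) := by ring
              rw [h6, abs_mul, abs_of_pos h, mul_one, mul_comm]
              exact mul_le_mul_of_nonneg_right h5.le h.le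
          have hs1 : Summable fun n => w n x * 1 := by simpa using hsum 1 x
          have e1 : N 1 x = ∑' n, w n x * 1 := by simp [hN]
          have e2 : N f x - f z0 * N 1 x = ∑' n, (w n x * f (a n) - f z0 * (w n x * 1)) := by
            rw [e1, ← tsum_mul_left, (hsum f x).tsum_sub (hs1.mul_left _)]
          have e3 : |N f x - f z0 * N 1 x| ≤ ε / 2 * N 1 x := by
            rw [e2, e1, ← tsum_mul_left, ← Real.norm_eq_abs]
            exact tsum_of_norm_bounded (hs1.mul_left _).hasSum
              (fun n => by rw [Real.norm_eq_abs]; exact key n)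
          rw [Real.dist_eq]
          have e4 : N f x / N 1 x - f z0 = (N f x - f z0 * N 1 x) / N 1 x := by field_simp
          rw [e4, abs_div, abs_of_pos hWx, div_lt_iff₀ hWx]
          have : ε / 2 * N 1 x < ε * N 1 x := by nlinarith
          linarith
      · have h1 : ∀ᶠ x in 𝓝 x0, x ∉ F := hFc.isOpen_compl.mem_nhds hx0
        have h2 : ContinuousAt (fun x => N f x / N 1 x) x0 :=
          (hNc f).continuousAt.div (hNc 1).continuousAt (hW x0 hx0).ne'
        refine h2.congr ?_
        filter_upwards [h1] with x hx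
        exact (hμn f x hx).symm)
  refine ⟨E, fun f hf x => ?_, fun f z => ?_⟩
  · have := hpos x f hf
    rw [← hE] at this
    exact this
  · rw [hE, hμj]

end Pool.Agent.Lib.MP_cf3d36_an
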