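import Mathlib

namespace Pool.Agent.Lib.MP_cf3d36_an

open Function

/-- The abstract shift lemma. -/
theorem shift_bijective {A B A' B' : Type*}
    [NormedAddCommGroup A] [NormedSpace ℝ A] [NormedAddCommGroup B] [NormedSpace ℝ B]
    [NormedAddCommGroup A'] [NormedSpace ℝ A'] [NormedAddCommGroup B'] [NormedSpace ℝ B']
    [CompleteSpace A']
    (S : A' ≃L[ℝ] B') (J : A →L[ℝ] B) (J' : A' →L[ℝ] B') (RA : A →L[ℝ] A') (RB : B →L[ℝ] B')
    (EB : B' →L[ℝ] B) (h1 : ∀ b', RB (EB b') = b') (h2 : ∀ a, RB (J a) = J' (RA a))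
    (h3 : ∀ a, J a = 0 → RA a = 0 → a = 0)
    (h4 : ∀ c a', RB c = J' a' → ∃ a, J a = c ∧ RA a = a') :
    ∃ l : ℝ, 0 < l ∧ Bijective (fun a => J a + l • EB (S (RA a))) := by
  set t : A' →L[ℝ] A' := (S.symm : B' →L[ℝ] A').comp J' with ht
  set l : ℝ := ‖t‖ + 1 with hl
  have hl0 : 0 < l := by positivity
  have hnorm : ‖-(l⁻¹ • t)‖ < 1 := by
    rw [norm_neg, norm_smul, norm_inv, Real.norm_of_nonneg hl0.le, inv_mul_lt_iff₀ hl0]
    simp [hl]
  have hu : IsUnit (1 - -(l⁻¹ • t)) := (Units.oneSub _ hnorm).isUnit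
  have hb : Bijective ⇑(1 - -(l⁻¹ • t)) := ContinuousLinearMap.isUnit_iff_bijective.1 hu
  have hG : ∀ a', J' a' + l • S a' = l • S ((1 - -(l⁻¹ • t) : A' →L[ℝ] A') a') := by
    intro a'
    simp [ht, smul_smul, mul_inv_cancel₀ hl0.ne', add_comm]
  have hGinj : ∀ a', J' a' + l • S a' = 0 → a' = 0 := by
    intro a' h
    rw [hG, smul_eq_zero] at h
    rcases h with h | h
    · exact absurd h hl0.ne'
    · have h' : (1 - -(l⁻¹ • t) : A' →L[ℝ] A') a' = 0 := S.map_eq_zero_iff.1 h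
      apply hb.1
      rw [h', map_zero]
  have hGsurj : ∀ b', ∃ a', J' a' + l • S a' = b' := by
    intro b'
    obtain ⟨a', ha'⟩ := hb.2 (S.symm (l⁻¹ • b'))
    refine ⟨a', ?_⟩
    rw [hG, ha']
    simp [smul_smul, mul_inv_cancel₀ hl0.ne']
  refine ⟨l, hl0, ?_, ?_⟩
  · intro a b hab
    have h0 : J (a - b) + l • EB (S (RA (a - b))) = 0 := by
      simp only [map_sub, smul_sub] at hab ⊢
      have : J a - J b + (l • EB (S (RA a)) - l • EB (S (RA b)))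
          = (J a + l • EB (S (RA a))) - (J b + l • EB (S (RA b))) := by abel
      rw [this, hab, sub_self]
    have h5 : RA (a - b) = 0 := by
      apply hGinj
      have := congrArg RB h0
      simpa only [map_add, map_smul, h1, h2, map_zero] using this
    rw [h5] at h0
    simp only [map_zero, smul_zero, add_zero] at h0
    exact sub_eq_zero.1 (h3 _ h0 h5)
  · intro b
    obtain ⟨a', ha'⟩ := hGsurj (RB b)
    obtain ⟨a, ha1, ha2⟩ := h4 (b - l • EB (S a')) a' (by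
      rw [map_sub, map_smul, h1, ← ha']; abel)
    refine ⟨a, ?_⟩
    simp only [ha1, ha2]
    abel

/-- There is a positive isomorphism from `A` onto `B`. -/
def PosIso (A B : Type*) [NormedAddCommGroup A] [NormedSpace ℝ A] [LE A]
    [NormedAddCommGroup B] [NormedSpace ℝ B] [LE B] : Prop :=
  ∃ T : A ≃L[ℝ] B, ∀ a, 0 ≤ a → 0 ≤ T a

theorem PosIso.trans {A B C : Type*} [NormedAddCommGroup A] [NormedSpace ℝ A] [LE A]
    [NormedAddCommGroup B] [NormedSpace ℝ B] [LE B]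
    [NormedAddCommGroup C] [NormedSpace ℝ C] [LE C] (h : PosIso A B) (h' : PosIso B C) :
    PosIso A C := by
  obtain ⟨T, hT⟩ := h
  obtain ⟨T', hT'⟩ := h'
  exact ⟨T.trans T', fun a ha => hT' _ (hT a ha)⟩

theorem posIso_of_bijective {A B : Type*} [NormedAddCommGroup A] [NormedSpace ℝ A] [LE A]
    [CompleteSpace A] [NormedAddCommGroup B] [NormedSpace ℝ B] [LE B] [CompleteSpace B]
    (T : A →L[ℝ] B) (hb : Bijective T) (hp : ∀ a, 0 ≤ a → 0 ≤ T a) : PosIso A B :=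
  ⟨ContinuousLinearEquiv.ofBijective T (LinearMap.ker_eq_bot.2 hb.1)
    (LinearMap.range_eq_top.2 hb.2), hp⟩

/-- `C(M)` is positively complemented in `C(K)`. -/
def PosCompl (M K : Type*) [TopologicalSpace M] [TopologicalSpace K] : Prop :=
  ∃ (R : C(K, ℝ) →L[ℝ] C(M, ℝ)) (E : C(M, ℝ) →L[ℝ] C(K, ℝ)),
    (∀ f, 0 ≤ f → 0 ≤ R f) ∧ (∀ g, 0 ≤ g → 0 ≤ E g) ∧ ∀ g, R (E g) = g

variable {K L M : Type*} [TopologicalSpace K] [CompactSpace K] [TopologicalSpace L]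
  [CompactSpace L] [TopologicalSpace M] [CompactSpace M]

theorem posIso_absorb (h : PosCompl M K) (hS : PosIso (C(L, ℝ) × C(M, ℝ)) C(M, ℝ)) :
    PosIso (C(L, ℝ) × C(K, ℝ)) C(K, ℝ) := by
  obtain ⟨R, E, hR, hE, hRE⟩ := h
  obtain ⟨S, hS⟩ := hS
  obtain ⟨l, hl, hb⟩ := shift_bijective (A := C(L, ℝ) × C(K, ℝ)) (B := C(K, ℝ)) S
    (ContinuousLinearMap.snd ℝ _ _) (ContinuousLinearMap.snd ℝ _ _)
    ((ContinuousLinearMap.id ℝ _).prodMap R) R E hRE (fun a => rfl)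
    (by
      rintro ⟨z, x⟩ h1 h2
      have h3 : z = 0 := congrArg Prod.fst h2
      have h4 : x = 0 := h1
      rw [h3, h4]; rfl)
    (by
      rintro c ⟨z, w⟩ hc
      refine ⟨(z, c), rfl, ?_⟩
      have : R c = w := hc
      simp [this])
  refine posIso_of_bijective (ContinuousLinearMap.snd ℝ _ _ +
    l • (E.comp ((S : _ →L[ℝ] _).comp ((ContinuousLinearMap.id ℝ _).prodMap R)))) hb ?_
  rintro ⟨z, x⟩ ⟨hz, hx⟩
  have h1 : (0 : C(L, ℝ) × C(M, ℝ)) ≤ (z, R x) := ⟨hz, hR x hx⟩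
  have h2 := hE _ (hS _ h1)
  have h3 : 0 ≤ l • E (S (z, R x)) := smul_nonneg hl.le h2
  exact add_nonneg hx h3

theorem posIso_emit (h : PosCompl M K) (hS : PosIso C(M, ℝ) (C(L, ℝ) × C(M, ℝ))) :
    PosIso C(K, ℝ) (C(L, ℝ) × C(K, ℝ)) := by
  obtain ⟨R, E, hR, hE, hRE⟩ := h
  obtain ⟨S, hS⟩ := hS
  obtain ⟨l, hl, hb⟩ := shift_bijective (A := C(K, ℝ)) (B := C(L, ℝ) × C(K, ℝ)) S
    (ContinuousLinearMap.inr ℝ _ _) (ContinuousLinearMap.inr ℝ _ _) R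
    ((ContinuousLinearMap.id ℝ _).prodMap R) ((ContinuousLinearMap.id ℝ _).prodMap E)
    (by rintro ⟨z, w⟩; simp [hRE])
    (by intro a; simp)
    (by
      intro a h1 _
      exact congrArg Prod.snd h1)
    (by
      rintro ⟨z, x⟩ w hc
      have h1 : z = 0 := congrArg Prod.fst hc
      have h2 : R x = w := congrArg Prod.snd hc
      exact ⟨x, by simp [h1], h2⟩)
  refine posIso_of_bijective (ContinuousLinearMap.inr ℝ _ _ +
    l • (((ContinuousLinearMap.id ℝ _).prodMap E).comp ((S : _ →L[ℝ] _).comp R))) hb ?_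
  intro x hx
  obtain ⟨h1, h2⟩ := hS _ (hR x hx)
  have h3 := hE _ h2
  have h4 : (0 : C(L, ℝ) × C(K, ℝ)) ≤ (0, x) := ⟨le_rfl, hx⟩
  have h5 : (0 : C(L, ℝ) × C(K, ℝ)) ≤ l • ((S (R x)).1, E (S (R x)).2) :=
    ⟨smul_nonneg hl.le h1, smul_nonneg hl.le h3⟩
  exact add_nonneg h4 h5

theorem posIso_swap : PosIso (C(L, ℝ) × C(K, ℝ)) (C(K, ℝ) × C(L, ℝ)) :=
  ⟨ContinuousLinearEquiv.prodComm ℝ _ _, fun _ h => ⟨h.2, h.1⟩⟩

end Pool.Agent.Lib.MP_cf3d36_an
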