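import Mathlib
import Pool.Agent.Lib.MP_cf3d36_an.Shift
import Pool.Agent.Lib.MP_cf3d36_an.Ext

namespace Pool.Agent.Lib.MP_cf3d36_an

open Function Filter Topology Set MeasureTheory

/-- Composition operator. -/
noncomputable def pull {A B : Type*} [TopologicalSpace A] [TopologicalSpace B] (p : C(A, B)) :
    C(B, ℝ) →L[ℝ] C(A, ℝ) where
  toFun f := f.comp p
  map_add' _ _ := rfl
  map_smul' _ _ := rfl
  cont := ContinuousMap.continuous_precomp p

theorem exists_separating (M : Type*) [MetricSpace M] [CompactSpace M] :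
    ∃ g : ℕ → M → ℝ, (∀ n, Continuous (g n)) ∧
      ∀ x y, x ≠ y → ∃ n, g n x < 0 ∧ 1 < g n y := by
  rcases isEmpty_or_nonempty M with hM | hM
  · exact ⟨fun _ _ => 0, fun _ => continuous_const, fun x => isEmptyElim x⟩
  obtain ⟨a, ha⟩ : ∃ a : ℕ → M, DenseRange a := ⟨_, TopologicalSpace.denseRange_denseSeq M⟩
  refine ⟨fun n x => ((Nat.unpair n).1 : ℝ) * dist x (a (Nat.unpair n).2) - 1,
    fun n => by fun_prop, ?_⟩
  intro x y hxy
  have hd : 0 < dist x y := dist_pos.2 hxy
  obtain ⟨m, hm⟩ := exists_nat_gt (3 / dist x y)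
  have hm0 : (0 : ℝ) < m := lt_trans (by positivity) hm
  rw [div_lt_iff₀ hd] at hm
  obtain ⟨k, hk⟩ := Metric.denseRange_iff.1 ha x (1 / m) (by positivity)
  rw [lt_div_iff₀ hm0] at hk
  refine ⟨Nat.pair m k, ?_, ?_⟩
  · simp only [Nat.unpair_pair]; linarith
  · simp only [Nat.unpair_pair]
    have h1 := dist_triangle_right x y (a k)
    have h2 : (m : ℝ) * dist x y ≤ m * (dist x (a k) + dist y (a k)) :=
      mul_le_mul_of_nonneg_left h1 hm0.le
    nlinarith

/-- Positive form of the lemma of Miljutin. -/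
theorem posCompl_of_uncountable (M K : Type*) [MetricSpace M] [CompactSpace M]
    [MetricSpace K] [CompactSpace K] [Uncountable K] : PosCompl M K := by
  classical
  obtain ⟨ι, -, hιc, hιi⟩ := (isClosed_univ (X := K)).exists_nat_bool_injection_of_not_countable
    Set.not_countable_univ
  obtain ⟨g, hgc, hgs⟩ := exists_separating M
  set Φ : M → ℝ → ℕ → Bool := fun x u n => decide (u < g n x) with hΦ
  set Zs : Set (M × (ℕ → Bool)) :=
    {p | ∀ n, (p.2 n = true → 0 ≤ g n p.1) ∧ (p.2 n = false → g n p.1 ≤ 1)} with hZs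
  have hZc : IsClosed Zs := by
    simp only [hZs, ofPred_forall]
    refine isClosed_iInter fun n => ?_
    have hn : Continuous fun p : M × (ℕ → Bool) => p.2 n := by fun_prop
    have hg : Continuous fun p : M × (ℕ → Bool) => g n p.1 := (hgc n).comp continuous_fst
    apply IsClosed.and
    · exact isClosed_imp ((isOpen_discrete {true}).preimage hn) (isClosed_le continuous_const hg)
    · exact isClosed_imp ((isOpen_discrete {false}).preimage hn) (isClosed_le hg continuous_const)
  have : CompactSpace Zs := isCompact_iff_compactSpace.1 hZc.isCompact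
  set j : Zs → K := fun p => ι p.1.2 with hj
  have hjc : Continuous j := hιc.comp (continuous_snd.comp continuous_subtype_val)
  have hji : Injective j := by
    rintro ⟨⟨x, ω⟩, hx⟩ ⟨⟨y, ω'⟩, hy⟩ h
    have h1 : ω = ω' := hιi h
    subst h1
    have h2 : x = y := by
      by_contra hxy
      obtain ⟨n, hn1, hn2⟩ := hgs x y hxy
      cases hω : ω n
      · have := (hy n).2 hω
        simp only at this
        linarith
      · have := (hx n).1 hω
        simp only at this
        linarith
    subst h2
    rfl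
  obtain ⟨E, hEpos, hE⟩ := exists_extension j hjc hji
  let π : C(Zs, M) := ⟨fun p => p.1.1, continuous_fst.comp continuous_subtype_val⟩
  have hmem : ∀ x u, u ∈ Ioc (0 : ℝ) 1 → (x, Φ x u) ∈ Zs := by
    intro x u hu n
    simp only [hΦ, decide_eq_true_eq, decide_eq_false_iff_not, not_lt]
    exact ⟨fun h => by linarith [hu.1], fun h => h.trans hu.2⟩
  set ν : Measure ℝ := volume.restrict (Ioc (0 : ℝ) 1) with hν
  have : IsFiniteMeasure ν := by rw [hν]; infer_instance
  have hmeas : ∀ (f : C(K, ℝ)) x, Measurable fun u => f (ι (Φ x u)) := by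
    intro f x
    have h1 : Measurable (Φ x) := by
      refine measurable_pi_lambda _ fun n => ?_
      simp only [hΦ]
      apply measurable_to_bool
      have : (fun u : ℝ => decide (u < g n x)) ⁻¹' {true} = Iio (g n x) := by
        ext u; simp
      rw [this]; exact measurableSet_Iio
    exact (f.continuous.comp hιc).measurable.comp h1
  have hint : ∀ (f : C(K, ℝ)) x, Integrable (fun u => f (ι (Φ x u))) ν := fun f x =>
    Integrable.of_bound (hmeas f x).aestronglyMeasurable ‖f‖
      (ae_of_all _ fun u => f.norm_coe_le_norm _)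
  have hpos : ∀ x (f : C(K, ℝ)), 0 ≤ f → 0 ≤ ∫ u, f (ι (Φ x u)) ∂ν := fun x f hf =>
    integral_nonneg fun u => hf _
  obtain ⟨R, hR⟩ := exists_op (fun (x : M) (f : C(K, ℝ)) => ∫ u, f (ι (Φ x u)) ∂ν)
    (by
      intro x f f'
      simp only [ContinuousMap.add_apply]
      exact integral_add (hint f x) (hint f' x))
    (by
      intro x c f
      simp only [ContinuousMap.smul_apply, smul_eq_mul]
      exact integral_const_mul c _)
    hpos
    (by
      intro f
      rw [continuous_iff_continuousAt]
      intro x0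
      refine continuousAt_of_dominated (bound := fun _ => ‖f‖)
        (Eventually.of_forall fun x => (hmeas f x).aestronglyMeasurable)
        (Eventually.of_forall fun x => ae_of_all _ fun u => f.norm_coe_le_norm _)
        (integrable_const _) ?_
      have hc : (range fun n => g n x0).Countable := countable_range _
      have hae : ∀ᵐ u ∂ν, u ∉ range fun n => g n x0 :=
        ae_restrict_of_ae (hc.ae_notMem volume)
      filter_upwards [hae] with u hu
      refine (f.continuous.comp hιc).continuousAt.comp (f := fun x => Φ x u) ?_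
      rw [continuousAt_pi]
      intro n
      have hne : u ≠ g n x0 := fun h => hu ⟨n, h.symm⟩
      rcases hne.lt_or_gt with h | h
      · have : ∀ᶠ x in 𝓝 x0, u < g n x := (hgc n).continuousAt.eventually (lt_mem_nhds h)
        refine (continuousAt_const (y := true)).congr ?_
        filter_upwards [this] with x hx
        simp [hΦ, hx]
      · have : ∀ᶠ x in 𝓝 x0, g n x < u := (hgc n).continuousAt.eventually (gt_mem_nhds h)
        refine (continuousAt_const (y := false)).congr ?_
        filter_upwards [this] with x hx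
        simp [hΦ, hx.le])
  refine ⟨R, E.comp (pull π), ?_, ?_, ?_⟩
  · intro f hf x
    have := hpos x f hf
    rw [← hR] at this
    exact this
  · intro f hf
    exact hEpos _ fun z => hf _
  · intro f
    ext x
    rw [hR]
    have : ∀ᵐ u ∂ν, (E.comp (pull π)) f (ι (Φ x u)) = f x := by
      rw [hν]
      filter_upwards [ae_restrict_mem measurableSet_Ioc] with u hu
      exact hE (f.comp π) ⟨(x, Φ x u), hmem x u hu⟩
    rw [integral_congr_ae this]
    simp [hν]

theorem posIso_shift (L : Type*) [TopologicalSpace L] [CompactSpace L] [T2Space L] :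
    PosIso C(L × ℕ∞, ℝ) (C(L, ℝ) × C(L × ℕ∞, ℝ)) ∧
      PosIso (C(L, ℝ) × C(L × ℕ∞, ℝ)) C(L × ℕ∞, ℝ) := by
  let p0 : C(L, L × ℕ∞) := ⟨fun l => (l, 0), by fun_prop⟩
  let p1 : C(L × ℕ∞, L × ℕ∞) := ⟨fun q => (q.1, q.2 + 1), by fun_prop⟩
  have hcases : ∀ q : L × ℕ∞, (∃ l, q = p0 l) ∨ ∃ r, q = p1 r := by
    rintro ⟨l, n⟩
    induction n using ENat.recTopCoe with
    | top => exact Or.inr ⟨(l, ⊤), rfl⟩
    | coe n =>
      cases n with
      | zero => exact Or.inl ⟨l, rfl⟩
      | succ n => exact Or.inr ⟨(l, (n : ℕ∞)), rfl⟩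
  let e : L ⊕ (L × ℕ∞) → L × ℕ∞ := Sum.elim p0 p1
  have hec : Continuous e := p0.continuous.sumElim p1.continuous
  have heb : Bijective e := by
    constructor
    · rintro (l | ⟨l, n⟩) (l' | ⟨l', n'⟩) h
      · have : l = l' := congrArg Prod.fst h
        rw [this]
      · have : (0 : ℕ∞) = n' + 1 := congrArg Prod.snd h
        exact absurd this.symm (by simp)
      · have : n + 1 = (0 : ℕ∞) := congrArg Prod.snd h
        exact absurd this (by simp)
      · have h1 : l = l' := congrArg Prod.fst h
        have h2 : n + 1 = n' + 1 := congrArg Prod.snd h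
        have h3 : n = n' := WithTop.add_right_cancel ENat.one_ne_top h2
        rw [h1, h3]
    · intro q
      rcases hcases q with ⟨l, rfl⟩ | ⟨r, rfl⟩
      · exact ⟨Sum.inl l, rfl⟩
      · exact ⟨Sum.inr r, rfl⟩
  let h : (L ⊕ (L × ℕ∞)) ≃ₜ (L × ℕ∞) :=
    Continuous.homeoOfEquivCompactToT2 (f := Equiv.ofBijective e heb) hec
  let S : C(L × ℕ∞, ℝ) →L[ℝ] (C(L, ℝ) × C(L × ℕ∞, ℝ)) := (pull p0).prod (pull p1)
  have hSb : Bijective S := by
    constructor
    · intro w w' hw
      ext q
      rcases hcases q with ⟨l, rfl⟩ | ⟨r, rfl⟩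
      · exact congrArg (fun t : C(L, ℝ) × C(L × ℕ∞, ℝ) => t.1 l) hw
      · exact congrArg (fun t : C(L, ℝ) × C(L × ℕ∞, ℝ) => t.2 r) hw
    · rintro ⟨z, w⟩
      refine ⟨⟨fun q => Sum.elim z w (h.symm q),
        (z.continuous.sumElim w.continuous).comp h.symm.continuous⟩, ?_⟩
      ext q
      · have : h.symm (p0 q) = Sum.inl q := h.symm_apply_apply (Sum.inl q)
        exact congrArg (Sum.elim z w) this
      · have : h.symm (p1 q) = Sum.inr q := h.symm_apply_apply (Sum.inr q)
        exact congrArg (Sum.elim z w) this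
  let T := ContinuousLinearEquiv.ofBijective S (LinearMap.ker_eq_bot.2 hSb.1)
    (LinearMap.range_eq_top.2 hSb.2)
  refine ⟨⟨T, fun w hw => ⟨fun l => hw (p0 l), fun r => hw (p1 r)⟩⟩, ⟨T.symm, fun t ht => ?_⟩⟩
  obtain ⟨w, rfl⟩ := T.surjective t
  rw [T.symm_apply_apply]
  intro q
  rcases hcases q with ⟨l, rfl⟩ | ⟨r, rfl⟩
  · exact ht.1 l
  · exact ht.2 r

theorem posIso_of_uncountable (K L : Type*) [MetricSpace K] [CompactSpace K] [Uncountable K]
    [MetricSpace L] [CompactSpace L] [Uncountable L] : PosIso C(K, ℝ) C(L, ℝ) := by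
  have h1 : PosCompl (L × ℕ∞) K := by
    let _ := TopologicalSpace.metrizableSpaceMetric (L × ℕ∞)
    exact posCompl_of_uncountable _ _
  have h2 : PosCompl (K × ℕ∞) L := by
    let _ := TopologicalSpace.metrizableSpaceMetric (K × ℕ∞)
    exact posCompl_of_uncountable _ _
  exact ((posIso_emit h1 (posIso_shift L).1).trans posIso_swap).trans
    (posIso_absorb h2 (posIso_shift K).2)

end Pool.Agent.Lib.MP_cf3d36_an
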